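import Pool.Agent.R822.SuitTop

/-!
MP_7b4824: for `τ = ω₁` there are a family of non-trivial groups (all equal to the infinite cyclic
group) and a subgroup `H` of `G*(ω)` without a suitable set.
-/

namespace Pool.Agent.Results.MP_7b4824_gt.NoSuitable

open Set Topology

/-- The well-ordered index set `ω₁` (the ordinals below `ω₁`, as a type). -/
abbrev Om : Type := (Cardinal.aleph 1 : Cardinal.{0}).ord.ToType

instance : Nonempty Om := Pool.Agent.R822.Suit.good_aleph_one.nonempty

/-- The topology of `G*` on the full product: `W` is open iff with every point `x` it contains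
the coset `x U_α` for some `α`, where `U_α` is the set of all elements that are trivial at all
coordinates below `α`; the coset consists of the `y` that agree with `x` below `α`. -/
def starTop (G : Om → Type) : TopologicalSpace (∀ α, G α) where
  IsOpen W := ∀ x ∈ W, ∃ α : Om, ∀ y : ∀ α, G α, (∀ β < α, y β = x β) → y ∈ W
  isOpen_univ _ _ := ⟨Classical.arbitrary Om, fun _ _ => trivial⟩
  isOpen_inter s t hs ht x hx := by
    obtain ⟨a, ha⟩ := hs x hx.1
    obtain ⟨b, hb⟩ := ht x hx.2
    exact ⟨max a b, fun y hy => ⟨ha y (fun β hβ => hy β (lt_of_lt_of_le hβ (le_max_left _ _))),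
      hb y (fun β hβ => hy β (lt_of_lt_of_le hβ (le_max_right _ _)))⟩⟩
  isOpen_sUnion s hs x hx := by
    obtain ⟨t, ht, hxt⟩ := hx
    obtain ⟨a, ha⟩ := hs t ht x hxt
    exact ⟨a, fun y hy => ⟨t, ht, ha y hy⟩⟩

/-- `S` is a suitable set for the group `G` with the topology `t`: the subspace `S` is discrete,
`S ∪ {e}` is closed in `G`, and the subgroup generated by `S` is dense in `G`. -/
def IsSuitable {G : Type} [Group G] (t : TopologicalSpace G) (S : Set G) : Prop :=
  @DiscreteTopology S (TopologicalSpace.induced Subtype.val t) ∧ IsClosed[t] (S ∪ {1}) ∧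
    @Dense G t (Subgroup.closure S : Set G)

/-- There are a family of non-trivial groups indexed by `ω₁` and a subgroup `H` of the full
product, all of whose elements have countable support, such that `H`, with the subspace topology
from `G*`, has no suitable set. -/
theorem result :
    ∃ (G : Om → Type) (_ : ∀ α, Group (G α)), (∀ α, Nontrivial (G α)) ∧
      ∃ H : Subgroup (∀ α, G α), (∀ x ∈ H, {α | x α ≠ 1}.Countable) ∧
        ¬ ∃ S : Set H, IsSuitable (TopologicalSpace.induced Subtype.val (starTop G)) S := by
  classical
  have hI := Pool.Agent.R822.Suit.good_aleph_one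
  refine ⟨fun _ => Multiplicative ℤ, fun _ => inferInstance, fun _ => inferInstance, ?_⟩
  -- the subgroup
  let φ : (Om → Multiplicative ℤ) → (Om → ℤ) := fun x i => Multiplicative.toAdd (x i)
  let H : Subgroup (Om → Multiplicative ℤ) :=
    { carrier := {x | φ x ∈ Pool.Agent.R822.Suit.H Om}
      mul_mem' := fun {a b} ha hb => by
        have h : φ a + φ b ∈ Pool.Agent.R822.Suit.H Om := AddSubgroup.add_mem _ ha hb
        exact h
      one_mem' := AddSubgroup.zero_mem (Pool.Agent.R822.Suit.H Om)
      inv_mem' := fun {a} ha => by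
        have h : -φ a ∈ Pool.Agent.R822.Suit.H Om := AddSubgroup.neg_mem _ ha
        exact h }
  refine ⟨H, ?_, ?_⟩
  · intro x hx
    have hx' : φ x ∈ Pool.Agent.R822.Suit.H Om := hx
    have key : ∀ y ∈ Pool.Agent.R822.Suit.H Om, {α | y α ≠ 0}.Countable := by
      intro y hy
      unfold Pool.Agent.R822.Suit.H at hy
      induction hy using AddSubgroup.closure_induction with
      | mem x hx =>
        rcases hx with ⟨i, rfl⟩ | ⟨i, rfl⟩
        · refine (countable_singleton i).mono ?_
          intro j hj
          by_contra hc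
          exact hj (Pool.Agent.R822.Suit.e_apply_of_ne hc)
        · exact Pool.Agent.R822.Suit.g_supp_countable i
      | zero => simp
      | add x y _ _ hx hy =>
        refine (hx.union hy).mono ?_
        intro α hα
        by_contra hc
        simp only [mem_union, mem_ofPred_eq, not_or, not_not] at hc
        exact hα (by simp [hc.1, hc.2])
      | neg x _ hx =>
        refine hx.mono ?_
        intro α hα hc
        exact hα (by simp [hc])
    exact (key _ hx').mono (fun α hα => fun h => hα h)
  · rintro ⟨S, hd, hc, hdense⟩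
    have hopen : ∀ (x : H) (α : Om), IsOpen[TopologicalSpace.induced Subtype.val (starTop _)]
        ({y : H | ∀ β < α, y.1 β = x.1 β}) := by
      intro x α
      refine ⟨{y | ∀ β < α, y β = x.1 β}, ?_, rfl⟩
      intro y hy
      exact ⟨α, fun z hz β hβ => (hz β hβ).trans (hy β hβ)⟩
    have hopen' : ∀ (W : Set H), IsOpen[TopologicalSpace.induced Subtype.val (starTop _)] W →
        ∀ x ∈ W, ∃ α : Om, ∀ y : H, (∀ β < α, y.1 β = x.1 β) → y ∈ W := by
      rintro W ⟨V, hV, rfl⟩ x hx
      obtain ⟨α, hα⟩ := hV x.1 hx
      exact ⟨α, fun y hy => hα y.1 hy⟩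
    refine Pool.Agent.R822.Suit.core hI ((fun x : H => φ x.1) '' S) ?_ ?_ ?_
    · rintro _ ⟨x, -, rfl⟩
      exact x.2
    · intro p hp hp0
      let P : H := ⟨fun i => Multiplicative.ofAdd (p i), hp⟩
      have hP0 : P ≠ 1 := by
        intro h
        apply hp0
        have := congrArg Subtype.val h
        funext i
        exact congrArg Multiplicative.toAdd (congrFun this i)
      have hnh : ∃ V : Set H, IsOpen[TopologicalSpace.induced Subtype.val (starTop _)] V ∧ P ∈ V ∧
          ∀ t ∈ S, t ∈ V → t = P := by
        by_cases hPS : P ∈ S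
        · have h1 := @isOpen_discrete S (TopologicalSpace.induced Subtype.val
            (TopologicalSpace.induced Subtype.val (starTop _))) hd ({⟨P, hPS⟩} : Set S)
          obtain ⟨O, hO, hO'⟩ := h1
          refine ⟨O, hO, ?_, fun t ht htO => ?_⟩
          · have : (⟨P, hPS⟩ : S) ∈ Subtype.val ⁻¹' O := by rw [hO']; rfl
            exact this
          · have : (⟨t, ht⟩ : S) ∈ Subtype.val ⁻¹' O := htO
            rw [hO'] at this
            exact congrArg Subtype.val this
        · refine ⟨(S ∪ {1})ᶜ, hc.isOpen_compl, ?_, ?_⟩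
          · rintro (h | h)
            · exact hPS h
            · exact hP0 h
          · intro t ht ht'
            exact absurd (Or.inl ht) ht'
      obtain ⟨V, hV, hPV, hVS⟩ := hnh
      obtain ⟨α, hα⟩ := hopen' V hV P hPV
      refine ⟨α, ?_⟩
      rintro _ ⟨t, ht, rfl⟩ hag
      have := hVS t ht (hα t (fun β hβ => hag β hβ))
      rw [this]
      rfl
    · intro x hx α
      let X : H := ⟨fun i => Multiplicative.ofAdd (x i), hx⟩
      have hne : ({y : H | ∀ β < α, y.1 β = X.1 β}).Nonempty := ⟨X, fun _ _ => rfl⟩
      obtain ⟨t, ht, ht'⟩ := @Dense.exists_mem_open H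
        (TopologicalSpace.induced Subtype.val (starTop _)) _ hdense _ (hopen X α) hne
      refine ⟨φ t.1, ?_, ht'⟩
      have : ∀ z ∈ Subgroup.closure S, φ z.1 ∈ AddSubgroup.closure ((fun x : H => φ x.1) '' S) := by
        intro z hz
        induction hz using Subgroup.closure_induction with
        | mem x hx => exact AddSubgroup.subset_closure ⟨x, hx, rfl⟩
        | one => exact AddSubgroup.zero_mem _
        | mul x y _ _ hx hy => exact AddSubgroup.add_mem _ hx hy
        | inv x _ hx => exact AddSubgroup.neg_mem _ hx
      exact this t ht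

end Pool.Agent.Results.MP_7b4824_gt.NoSuitable
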